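import Pool.Agent.H82.AS.Targets

/-!
Asymptotic formula for the number of all admissible triples (MP_7ecdd4_nt): row ADT, coprime triples
for which the product is divisible by `D`.
-/

set_option autoImplicit false

open Pool.Agent.H38.RB Pool.Agent.H38.PS

namespace Pool.Agent.H60.AS

open Pool.Agent.H82.AS

theorem adm_natAbs {x : Fin 3 → ℤ} (hx : Adm x) {i j : Fin 3} (hij : i ≠ j) :
    (x i).natAbs.Coprime (x j).natAbs := by
  have h := hx.2.1 i j hij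
  rw [Int.isCoprime_iff_gcd_eq_one] at h
  exact h

theorem pr_eq (x : Fin 3 → ℤ) : pr x = (x 0).natAbs * (x 1).natAbs * (x 2).natAbs := by
  unfold pr
  rw [Int.natAbs_mul, Int.natAbs_mul]

/-- the factorization attached to a triple -/
def fx (D : ℕ) (x : Fin 3 → ℤ) (i : Fin 3) : ℕ := Nat.gcd D (x i).natAbs

theorem fx_mem {D : ℕ} {x : Fin 3 → ℤ} (hx : Adm x) (hD : D ∣ pr x) :
    fx D x 0 * fx D x 1 * fx D x 2 = D ∧ ∀ i j, i ≠ j → (fx D x i).Coprime (fx D x j) := by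
  refine ⟨?_, fun i j hij => ?_⟩
  · unfold fx
    have h01 : (x 0).natAbs.Coprime (x 1).natAbs := adm_natAbs hx (by decide)
    have h02 : (x 0).natAbs.Coprime (x 2).natAbs := adm_natAbs hx (by decide)
    have h12 : (x 1).natAbs.Coprime (x 2).natAbs := adm_natAbs hx (by decide)
    rw [← h01.gcd_mul D, ← (Nat.Coprime.mul_left h02 h12).gcd_mul D]
    rw [← pr_eq]
    exact Nat.gcd_eq_left hD
  · have h := adm_natAbs hx hij
    unfold fx
    exact (h.coprime_dvd_left (Nat.gcd_dvd_right _ _)).coprime_dvd_right (Nat.gcd_dvd_right _ _)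

theorem gcd_aux {a b c n : ℕ} (ha : a ∣ n) (hb : b.Coprime n) (hc : c.Coprime n) :
    Nat.gcd (a * (b * c)) n = a := by
  have h : (b * c).Coprime n := Nat.Coprime.mul_left hb hc
  rw [Nat.Coprime.gcd_mul_right_cancel a h]
  exact Nat.gcd_eq_left ha

theorem fx_eq {D : ℕ} {x : Fin 3 → ℤ} {d : Fin 3 → ℕ} (hx : Adm x) (hd : d 0 * d 1 * d 2 = D)
    (hdv : ∀ i, (d i : ℤ) ∣ x i) : fx D x = d := by
  have hn : ∀ i, d i ∣ (x i).natAbs := fun i => Int.natCast_dvd.mp (hdv i)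
  have hc : ∀ i j, i ≠ j → (d i).Coprime (x j).natAbs := fun i j hij =>
    (adm_natAbs hx hij).coprime_dvd_left (hn i)
  funext i
  unfold fx
  fin_cases i
  · change Nat.gcd D (x 0).natAbs = d 0
    rw [show D = d 0 * (d 1 * d 2) by rw [← hd]; ring]
    exact gcd_aux (hn 0) (hc 1 0 (by decide)) (hc 2 0 (by decide))
  · change Nat.gcd D (x 1).natAbs = d 1
    rw [show D = d 1 * (d 0 * d 2) by rw [← hd]; ring]
    exact gcd_aux (hn 1) (hc 0 1 (by decide)) (hc 2 1 (by decide))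
  · change Nat.gcd D (x 2).natAbs = d 2
    rw [show D = d 2 * (d 0 * d 1) by rw [← hd]; ring]
    exact gcd_aux (hn 2) (hc 0 2 (by decide)) (hc 1 2 (by decide))

theorem pf_ADT (hM : T_MOB) (hF : T_FAC) : T_ADT := by
  classical
  obtain ⟨C, hC, h⟩ := hM
  refine ⟨C, hC, fun D T hD hT => ?_⟩
  obtain ⟨hfin, hcard⟩ := hF D hD
  set 𝓕 : Set (Fin 3 → ℕ) :=
    {d : Fin 3 → ℕ | d 0 * d 1 * d 2 = D ∧ ∀ i j, i ≠ j → (d i).Coprime (d j)} with h𝓕
  have hpos : ∀ d ∈ 𝓕, ∀ i, 1 ≤ d i := by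
    intro d hd i
    rw [Nat.one_le_iff_ne_zero]
    intro h0
    have h1 := hd.1
    have : D = 0 := by
      rw [← h1]
      fin_cases i
      · change d 0 = 0 at h0
        rw [h0]; simp
      · change d 1 = 0 at h0
        rw [h0]; simp
      · change d 2 = 0 at h0
        rw [h0]; simp
    omega
  have hAd : ∀ d ∈ 𝓕, (Ad d T).Finite := fun d hd => (h d T (hpos d hd) hd.2 hT).1
  have hsub : AD D T ⊆ ⋃ d ∈ 𝓕, Ad d T := by
    rintro x ⟨hx, hxD, hxT⟩
    rw [Set.mem_iUnion₂]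
    exact ⟨fx D x, fx_mem hx hxD, hx, fun i => Int.natCast_dvd.mpr (Nat.gcd_dvd_right _ _), hxT⟩
  have hADf : (AD D T).Finite := (hfin.biUnion hAd).subset hsub
  refine ⟨hADf, ?_⟩
  have hfib : hADf.toFinset.card =
      ∑ d ∈ hfin.toFinset, (hADf.toFinset.filter fun x => fx D x = d).card := by
    refine Finset.card_eq_sum_card_fiberwise fun x hx => ?_
    have hx' : x ∈ AD D T := hADf.mem_toFinset.mp hx
    exact hfin.mem_toFinset.mpr (fx_mem hx'.1 hx'.2.1)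
  have hfc : ∀ d ∈ hfin.toFinset, (hADf.toFinset.filter fun x => fx D x = d).card =
      (Ad d T).ncard := by
    intro d hd
    have hd' : d ∈ 𝓕 := hfin.mem_toFinset.mp hd
    rw [Set.ncard_eq_toFinset_card _ (hAd d hd')]
    congr 1
    ext x
    rw [Finset.mem_filter, hADf.mem_toFinset, (hAd d hd').mem_toFinset]
    constructor
    · rintro ⟨⟨hx, hxD, hxT⟩, hfx⟩
      refine ⟨hx, fun i => ?_, hxT⟩
      rw [← hfx]
      exact Int.natCast_dvd.mpr (Nat.gcd_dvd_right _ _)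
    · rintro ⟨hx, hxd, hxT⟩
      refine ⟨⟨hx, ?_, hxT⟩, fx_eq hx hd'.1 hxd⟩
      rw [← hd'.1, pr_eq]
      exact mul_dvd_mul (mul_dvd_mul (Int.natCast_dvd.mp (hxd 0)) (Int.natCast_dvd.mp (hxd 1)))
        (Int.natCast_dvd.mp (hxd 2))
  have hcard' : ((hfin.toFinset.card : ℕ) : ℝ) = w3 D := by
    rw [← hcard, Set.ncard_eq_toFinset_card _ hfin]
  have hmain : ∀ d ∈ hfin.toFinset, |((Ad d T).ncard : ℝ) -
      6 * AR * T ^ (2 / 3 : ℝ) * kp D / D| ≤ C * T ^ (1 / 2 : ℝ) := by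
    intro d hd
    have hd' : d ∈ 𝓕 := hfin.mem_toFinset.mp hd
    have h2 := (h d T (hpos d hd') hd'.2 hT).2
    rw [hd'.1] at h2
    have e : (d 0 : ℝ) * d 1 * d 2 = D := by
      rw [← hd'.1]; push_cast; ring
    rw [e] at h2
    exact h2
  rw [Set.ncard_eq_toFinset_card _ hADf, hfib, Finset.sum_congr rfl hfc]
  have e1 : ((∑ d ∈ hfin.toFinset, (Ad d T).ncard : ℕ) : ℝ) -
      6 * AR * T ^ (2 / 3 : ℝ) * kp D * w3 D / D =
      ∑ d ∈ hfin.toFinset, (((Ad d T).ncard : ℝ) - 6 * AR * T ^ (2 / 3 : ℝ) * kp D / D) := by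
    rw [Finset.sum_sub_distrib, Finset.sum_const, nsmul_eq_mul, hcard']
    push_cast
    ring
  rw [e1]
  calc |∑ d ∈ hfin.toFinset, (((Ad d T).ncard : ℝ) - 6 * AR * T ^ (2 / 3 : ℝ) * kp D / D)|
      ≤ ∑ d ∈ hfin.toFinset, |((Ad d T).ncard : ℝ) - 6 * AR * T ^ (2 / 3 : ℝ) * kp D / D| :=
        Finset.abs_sum_le_sum_abs _ _
    _ ≤ ∑ d ∈ hfin.toFinset, C * T ^ (1 / 2 : ℝ) := Finset.sum_le_sum hmain
    _ = C * w3 D * T ^ (1 / 2 : ℝ) := by
        rw [Finset.sum_const, nsmul_eq_mul, hcard']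
        ring

end Pool.Agent.H60.AS
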